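import Pool.Agent.H62.BalMain

set_option autoImplicit false
open Pool.Agent.H62.Bal

namespace Pool.Agent.Results.MP_da2089_gt.EmuProd

/-- every emu function is bounded outside a bounded set -/
def EmuBounded {X : Type*} (𝓔 : Set (Set (X × X))) : Prop :=
  ∀ f : X → ℝ, (∀ E ∈ 𝓔, ∃ C, Osc 𝓔 f E C) → BddOff 𝓔 f

theorem result {X Y : Type*} [Nonempty X] [Nonempty Y] (𝓔 : Set (Set (X × X))) (𝓕 : Set (Set (Y × Y)))
    (hE : IsCoarse 𝓔) (hF : IsCoarse 𝓕) (hX : EmuBounded 𝓔) (hY : EmuBounded 𝓕) :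
    EmuBounded {D | ∃ E ∈ 𝓔, ∃ F ∈ 𝓕, D ⊆ tens E F} := fun f hf =>
  main hE.weak hF.weak (P := {D | ∃ E ∈ 𝓔, ∃ F ∈ 𝓕, D ⊆ tens E F})
    (fun E h F h' => ⟨E, h, F, h', subset_rfl⟩) (fun _ h => h) f hf
    (fun g h => hX g fun E h1 => let ⟨D, a, b⟩ := h E h1; (hf D a).imp b)
    (fun g h => hY g fun E h1 => let ⟨D, a, b⟩ := h E h1; (hf D a).imp b)

end Pool.Agent.Results.MP_da2089_gt.EmuProd
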